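import Pool.Agent.Y981.QB.Stm

/-!
# The symmetries of the honeycomb lattice
-/

set_option autoImplicit false

namespace Pool.Agent.Y495.QB

open H978R2.Hex Pool.Agent.Y981.QB

/-- four times the square of the distance -/
def N (u v : V) : ℤ := 3 * (u.1 - v.1) ^ 2 + (ht u - ht v) ^ 2

theorem dst_eq (u v : V) : dst u v = Real.sqrt ((N u v : ℤ) / 4) := by
  unfold dst
  rw [Complex.norm_eq_sqrt_sq_add_sq]
  congr 1
  unfold pos N
  simp only [Complex.sub_re, Complex.sub_im]
  push_cast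
  have h3 : Real.sqrt 3 ^ 2 = 3 := Real.sq_sqrt (by norm_num)
  have : (Real.sqrt 3 / 2 * (u.1 : ℝ) - Real.sqrt 3 / 2 * v.1) ^ 2 =
      Real.sqrt 3 ^ 2 / 4 * ((u.1 : ℝ) - v.1) ^ 2 := by ring
  rw [this, h3]
  ring

theorem N_zero {u v : V} (h : N u v = 0) : u = v := by
  unfold N at h
  have h1 : u.1 - v.1 = 0 := by nlinarith [sq_nonneg (u.1 - v.1), sq_nonneg (ht u - ht v)]
  have h2 : ht u - ht v = 0 := by nlinarith [sq_nonneg (u.1 - v.1), sq_nonneg (ht u - ht v)]
  unfold ht at h2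
  refine Prod.ext (by omega) (by omega)

theorem adj_iff (p q : V) : Adj p q ↔ N p q = 4 := by
  constructor
  · intro h
    unfold N
    rcases h with h | h | ⟨h, he⟩ | ⟨h, he⟩ <;> rw [Prod.ext_iff] at h <;>
      simp only [Prod.fst_sub, Prod.snd_sub] at h
    · have h1 : p.1 - q.1 = -1 := by omega
      have h2 : ht p - ht q = 1 ∨ ht p - ht q = -1 := by unfold ht; omega
      rcases h2 with h2 | h2 <;> rw [h1, h2] <;> norm_num
    · have h1 : p.1 - q.1 = 1 := by omega
      have h2 : ht p - ht q = 1 ∨ ht p - ht q = -1 := by unfold ht; omega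
      rcases h2 with h2 | h2 <;> rw [h1, h2] <;> norm_num
    · rw [Int.even_iff] at he
      have h1 : p.1 - q.1 = 0 := by omega
      have h2 : ht p - ht q = -2 := by unfold ht; omega
      rw [h1, h2]
      norm_num
    · rw [Int.even_iff] at he
      have h1 : p.1 - q.1 = 0 := by omega
      have h2 : ht p - ht q = 2 := by unfold ht; omega
      rw [h1, h2]
      norm_num
  · intro h
    unfold N at h
    have h1 : p.1 - q.1 ≤ 1 := by nlinarith [sq_nonneg (p.1 - q.1), sq_nonneg (ht p - ht q)]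
    have h2 : -1 ≤ p.1 - q.1 := by nlinarith [sq_nonneg (p.1 - q.1), sq_nonneg (ht p - ht q)]
    have h3 : ht p - ht q ≤ 2 := by nlinarith [sq_nonneg (p.1 - q.1), sq_nonneg (ht p - ht q)]
    have h4 : -2 ≤ ht p - ht q := by nlinarith [sq_nonneg (p.1 - q.1), sq_nonneg (ht p - ht q)]
    unfold Adj
    simp only [Prod.ext_iff, Prod.fst_sub, Prod.snd_sub, Int.even_iff]
    obtain ⟨x, hx⟩ : ∃ x, x = p.1 - q.1 := ⟨_, rfl⟩
    obtain ⟨y, hy⟩ : ∃ y, y = ht p - ht q := ⟨_, rfl⟩
    rw [← hx, ← hy] at h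
    rw [← hx] at h1 h2
    rw [← hy] at h3 h4
    unfold ht at hy
    have hx' : x = -1 ∨ x = 0 ∨ x = 1 := by omega
    have hy' : y = -2 ∨ y = -1 ∨ y = 0 ∨ y = 1 ∨ y = 2 := by omega
    rcases hx' with rfl | rfl | rfl <;> rcases hy' with rfl | rfl | rfl | rfl | rfl <;>
      norm_num at h <;> omega

/-- the distances are preserved -/
def Pres (f : V → V) : Prop := ∀ u v, N (f u) (f v) = N u v

theorem Pres.inj {f : V → V} (h : Pres f) : Function.Injective f := by
  intro u v huv
  apply N_zero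
  rw [← h u v, huv]
  unfold N
  ring

theorem Pres.adj {f : V → V} (h : Pres f) {u v : V} (ha : Adj u v) : Adj (f u) (f v) := by
  rw [adj_iff] at *
  rw [h, ha]

theorem Pres.dst {f : V → V} (h : Pres f) (u v : V) : dst (f u) (f v) = dst u v := by
  rw [dst_eq, dst_eq, h]

theorem Pres.comp {f g : V → V} (hf : Pres f) (hg : Pres g) : Pres (f ∘ g) := fun u v => by
  rw [Function.comp, Function.comp, hf, hg]

theorem Pres.iter {f : V → V} (hf : Pres f) (n : ℕ) : Pres (f^[n]) := by
  induction n with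
  | zero => exact fun u v => rfl
  | succ n ih =>
    rw [Function.iterate_succ']
    exact hf.comp ih

/-- rotation by 120 degrees around `(0, 0)` -/
def rho (v : V) : V :=
  (((v.1 + v.2) % 2 - 3 * v.2 - v.1) / 2, ((v.1 + v.2) % 2 + v.1 - v.2) / 2)

/-- reflection -/
def rf (v : V) : V := (-v.1, v.2)

/-- point reflection -/
def tau (v : V) : V := (-v.1, 1 - v.2)

theorem rho_one (v : V) : 2 * (rho v).1 = -v.1 - ht v := by
  unfold rho ht
  dsimp only
  omega

theorem rho_two (v : V) : 2 * ht (rho v) = 3 * v.1 - ht v := by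
  unfold rho ht
  dsimp only
  omega

theorem rf_two (v : V) : ht (rf v) = ht v := by
  unfold rf ht
  dsimp only
  omega

theorem tau_two (v : V) : ht (tau v) = 2 - ht v := by
  unfold tau ht
  dsimp only
  omega

theorem pres_rho : Pres rho := by
  intro u v
  have h1 := rho_one u
  have h2 := rho_one v
  have h3 := rho_two u
  have h4 := rho_two v
  unfold N
  have h5 : 2 * ((rho u).1 - (rho v).1) = -(u.1 - v.1) - (ht u - ht v) := by linarith
  have h6 : 2 * (ht (rho u) - ht (rho v)) = 3 * (u.1 - v.1) - (ht u - ht v) := by linarith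
  generalize (rho u).1 - (rho v).1 = a at *
  generalize ht (rho u) - ht (rho v) = b at *
  generalize u.1 - v.1 = c at *
  generalize ht u - ht v = d at *
  have h7 : 4 * (3 * a ^ 2 + b ^ 2) = 3 * (2 * a) ^ 2 + (2 * b) ^ 2 := by ring
  rw [h5, h6] at h7
  nlinarith

theorem pres_rf : Pres rf := by
  intro u v
  unfold N
  rw [rf_two, rf_two]
  unfold rf
  ring

theorem pres_tau : Pres tau := by
  intro u v
  unfold N
  rw [tau_two, tau_two]
  unfold tau
  ring

theorem sector_of {u v : V} (h1 : ht v - ht u ≤ 0) (h2 : 0 ≤ (v.1 - u.1) + (ht v - ht u)) :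
    Sector (pos v - pos u) := by
  unfold Sector pos
  simp only [Complex.sub_re, Complex.sub_im]
  have h3 : (ht v : ℝ) - ht u ≤ 0 := by exact_mod_cast h1
  have h4 : (0 : ℝ) ≤ ((v.1 : ℝ) - u.1) + ((ht v : ℝ) - ht u) := by exact_mod_cast h2
  refine ⟨by linarith, ?_⟩
  have h5 := mul_nonneg (Real.sqrt_nonneg 3) h4
  nlinarith

/-- the products of the symmetries -/
def G (b c a : ℕ) : V → V := rf^[b] ∘ tau^[c] ∘ rho^[a]

theorem pres_G (b c a : ℕ) : Pres (G b c a) :=
  (pres_rf.iter b).comp ((pres_tau.iter c).comp (pres_rho.iter a))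

/-- the signs can be chosen -/
theorem exists_sign (u v : V) (h : |ht v - ht u| ≤ |v.1 - u.1|) :
    ∃ b c : ℕ, b ≤ 1 ∧ c ≤ 1 ∧ Sector (pos ((rf^[b] ∘ tau^[c]) v) - pos ((rf^[b] ∘ tau^[c]) u)) := by
  have key : ∀ b c : ℕ, b ≤ 1 → c ≤ 1 →
      (ht ((rf^[b] ∘ tau^[c]) v) - ht ((rf^[b] ∘ tau^[c]) u) = (if c = 0 then 1 else -1) * (ht v - ht u)) ∧
      (((rf^[b] ∘ tau^[c]) v).1 - ((rf^[b] ∘ tau^[c]) u).1 =
        (if b = 0 then 1 else -1) * (if c = 0 then 1 else -1) * (v.1 - u.1)) := by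
    intro b c hb hc
    have hb' : b = 0 ∨ b = 1 := by omega
    have hc' : c = 0 ∨ c = 1 := by omega
    rcases hb' with rfl | rfl <;> rcases hc' with rfl | rfl
    · simp
    · simp only [Function.iterate_zero, Function.iterate_one, Function.comp, id, tau_two]
      simp [tau]
      ring
    · simp only [Function.iterate_zero, Function.iterate_one, Function.comp, id, rf_two]
      simp [rf]
      ring
    · simp only [Function.iterate_one, Function.comp, rf_two, tau_two]
      simp [rf, tau]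
  rcases le_total (ht v - ht u) 0 with h1 | h1 <;> rcases le_total 0 (v.1 - u.1) with h2 | h2
  · refine ⟨0, 0, by omega, by omega, sector_of ?_ ?_⟩
    · rw [(key 0 0 (by omega) (by omega)).1]
      simpa using h1
    · rw [(key 0 0 (by omega) (by omega)).1, (key 0 0 (by omega) (by omega)).2]
      rw [abs_of_nonpos h1, abs_of_nonneg h2] at h
      simp
      linarith
  · refine ⟨1, 0, by omega, by omega, sector_of ?_ ?_⟩
    · rw [(key 1 0 (by omega) (by omega)).1]
      simpa using h1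
    · rw [(key 1 0 (by omega) (by omega)).1, (key 1 0 (by omega) (by omega)).2]
      rw [abs_of_nonpos h1, abs_of_nonpos h2] at h
      simp
      linarith
  · refine ⟨1, 1, by omega, by omega, sector_of ?_ ?_⟩
    · rw [(key 1 1 (by omega) (by omega)).1]
      simp
      linarith
    · rw [(key 1 1 (by omega) (by omega)).1, (key 1 1 (by omega) (by omega)).2]
      rw [abs_of_nonneg h1, abs_of_nonneg h2] at h
      simp
      linarith
  · refine ⟨0, 1, by omega, by omega, sector_of ?_ ?_⟩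
    · rw [(key 0 1 (by omega) (by omega)).1]
      simp
      linarith
    · rw [(key 0 1 (by omega) (by omega)).1, (key 0 1 (by omega) (by omega)).2]
      rw [abs_of_nonneg h1, abs_of_nonpos h2] at h
      simp
      linarith

theorem exists_rot (u v : V) : ∃ a : ℕ, a ≤ 2 ∧
    |ht (rho^[a] v) - ht (rho^[a] u)| ≤ |(rho^[a] v).1 - (rho^[a] u).1| := by
  have h1 := rho_one u
  have h2 := rho_one v
  have h3 := rho_two u
  have h4 := rho_two v
  have h5 := rho_one (rho u)
  have h6 := rho_one (rho v)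
  have h7 := rho_two (rho u)
  have h8 := rho_two (rho v)
  by_contra hcon
  push Not at hcon
  have c0 := hcon 0 (by omega)
  have c1 := hcon 1 (by omega)
  have c2 := hcon 2 (by omega)
  simp only [Function.iterate_zero, id, Function.iterate_succ, Function.comp] at c0 c1 c2
  rcases abs_cases (v.1 - u.1) with ⟨a1, _⟩ | ⟨a1, _⟩ <;>
  rcases abs_cases (ht v - ht u) with ⟨a2, _⟩ | ⟨a2, _⟩ <;>
  rcases abs_cases ((rho v).1 - (rho u).1) with ⟨a3, _⟩ | ⟨a3, _⟩ <;>
  rcases abs_cases (ht (rho v) - ht (rho u)) with ⟨a4, _⟩ | ⟨a4, _⟩ <;>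
  rcases abs_cases ((rho (rho v)).1 - (rho (rho u)).1) with ⟨a5, _⟩ | ⟨a5, _⟩ <;>
  rcases abs_cases (ht (rho (rho v)) - ht (rho (rho u))) with ⟨a6, _⟩ | ⟨a6, _⟩ <;>
  rw [a1, a2] at c0 <;> rw [a3, a4] at c1 <;> rw [a5, a6] at c2 <;> omega

theorem sym : S_SYM := by
  refine ⟨fun i => G (i.val / 6) ((i.val / 3) % 2) (i.val % 3), fun i => (pres_G _ _ _).inj,
    fun i u v h => (pres_G _ _ _).adj h, fun i u v => (pres_G _ _ _).dst u v, fun u v => ?_⟩
  obtain ⟨a, ha, h⟩ := exists_rot u v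
  obtain ⟨b, c, hb, hc, h'⟩ := exists_sign (rho^[a] u) (rho^[a] v) h
  refine ⟨⟨6 * b + 3 * c + a, by omega⟩, ?_⟩
  have e1 : (6 * b + 3 * c + a) / 6 = b := by omega
  have e2 : (6 * b + 3 * c + a) / 3 % 2 = c := by omega
  have e3 : (6 * b + 3 * c + a) % 3 = a := by omega
  dsimp only
  rw [e1, e2, e3]
  exact h'

end Pool.Agent.Y495.QB
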